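import Pool.Agent.Helper36.LX.Sheet
open MeasureTheory Metric Set Filter Topology
open scoped ENNReal NNReal

/-! Row LF of the sheet `Pool.Agent.Helper36.LX.Sheet`: the slack of the edges at the terminals. -/

namespace H11ST
namespace LX
namespace L27
open LG

lemma FF_zero : FF 0 = 0 := by unfold FF; norm_num
lemma Th_zero : Th 0 = 0 := by unfold Th; norm_num

lemma FF_nonneg (x : ℝ) : 0 ≤ FF x := by
  unfold FF; split_ifs <;> positivity

lemma Th_nonneg (x : ℝ) : 0 ≤ Th x := by
  unfold Th; split_ifs <;> positivity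

lemma FF_mono {x y : ℝ} (hx : 0 ≤ x) (h : x ≤ y) : FF x ≤ FF y := by
  unfold FF
  split_ifs with h1 h2 h2
  · nlinarith
  · push Not at h2; nlinarith
  · exfalso; exact h1 (h.trans h2)
  · nlinarith

lemma Th_mono {x y : ℝ} (hx : 0 ≤ x) (h : x ≤ y) : Th x ≤ Th y := by
  unfold Th
  split_ifs with h1 h2 h2
  · nlinarith
  · push Not at h2; nlinarith
  · exfalso; exact h1 (h.trans h2)
  · nlinarith

lemma e0_pos : 0 < e0 := by unfold e0; norm_num
lemma e0_eq : e0 = 1 / 1000000 := rfl

lemma FF_top : 7 / 8 - e0 ≤ FF (1 - e0) := by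
  unfold FF
  rw [if_neg (by rw [e0_eq]; norm_num)]
  rw [e0_eq]; norm_num

lemma Th_top : Th (1 - e0) ≤ 5 / 8 := by
  unfold Th
  rw [if_neg (by rw [e0_eq]; norm_num)]
  rw [e0_eq]; norm_num

end L27

open LG L27 in
theorem lf : LX_LF := by
  classical
  intro hCOO hED hLFR d n p hp v hv hv2 j
  obtain ⟨hc1, hc2⟩ := hCOO d n p hp
  obtain ⟨hjj, hjk⟩ := hc1 j
  obtain ⟨hn1, hco, hsum, htop, hin, hne, hlow, hup⟩ := hc2 v hv
  have he := e0_pos
  have hee : e0 = 1 / 1000000 := rfl
  set a : ℝ := co p v j with ha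
  obtain ⟨x, hx⟩ : ∃ x : Fin n → ℝ, x = fun k => if k = j then 0 else co p v k := ⟨_, rfl⟩
  have hxj : x j = 0 := by rw [hx]; simp
  have hxk : ∀ k, k ≠ j → x k = co p v k := by intro k hk; rw [hx]; simp [hk]
  have hx0 : ∀ k, 0 ≤ x k := by
    intro k
    by_cases hk : k = j
    · rw [hk, hxj]
    · rw [hxk k hk]; exact hco k
  -- splitting of sums
  have split : ∀ g : ℝ → ℝ, g 0 = 0 → ∑ k, g (co p v k) = g a + ∑ k, g (x k) := by
    intro g hg
    rw [← Finset.add_sum_erase _ _ (Finset.mem_univ j),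
      ← Finset.add_sum_erase (Finset.univ) (fun k => g (x k)) (Finset.mem_univ j)]
    simp only [hxj, hg, zero_add, ← ha]
    congr 1
    refine Finset.sum_congr rfl fun k hk => ?_
    rw [hxk k (Finset.ne_of_mem_erase hk)]
  have s1 := split (fun t => t) rfl
  have s2 := split (fun t => t ^ 2) (by norm_num)
  have sTh := split Th Th_zero
  have ha0 : 0 ≤ a := hco j
  have ha1 : a ≤ 1 - e0 := htop j
  have hsT : sT p v = Th a + ∑ k, Th (x k) := sTh
  have hThs : 0 ≤ ∑ k, Th (x k) := Finset.sum_nonneg fun k _ => Th_nonneg _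
  have hpj : p j ∈ Hu p := subset_convexHull ℝ _ (mem_range_self j)
  have hnj : ‖p j‖ = 1 := hp.nrm j
  have hinj : |inner ℝ v (p j) - a| ≤ e0 := hin j
  have hpp : inner ℝ (p j) (p j) = (1 : ℝ) := by
    rw [real_inner_self_eq_norm_sq, hnj]; norm_num
  set l : ℝ := ‖v - p j‖ with hl
  have hl0 : 0 ≤ l := norm_nonneg _
  rcases lt_or_ge l (1 / 100) with hlt | hge
  · -- close to the terminal
    have h1 := hED hCOO d n p hp v hv (p j) hpj
    have h2 : 0 ≤ SL p v (p j) := by unfold SL; linarith
    have h3 : (1 : ℝ) - inner ℝ v (p j) ≤ l := by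
      have h4 := abs_real_inner_le_norm (v - p j) (p j)
      rw [hnj, mul_one, inner_sub_left, hpp] at h4
      have := (abs_le.1 h4).1
      linarith
    have h5 : (98 : ℝ) / 100 ≤ a := by
      have := (abs_le.1 hinj).2
      rw [hee] at this
      linarith
    have h6 : (60 : ℝ) / 100 ≤ Th a := by
      unfold Th
      rw [if_neg (by linarith)]
      nlinarith
    rw [hsT]
    linarith
  · have hlpos : 0 < l := by linarith
    have hl2 : l ^ 2 = ‖v‖ ^ 2 - 2 * inner ℝ v (p j) + 1 := by
      rw [hl, norm_sub_sq_real, hnj]; norm_num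
    have hLFR' := hLFR n a x l ha0 (by linarith) hx0 (by linarith) (by
      rw [← s2]
      have : (1 : ℝ) / 4 ≤ ‖v‖ ^ 2 := by nlinarith
      rw [hee] at hup
      linarith) hlpos (by
      have e1 : l ^ 2 - ((1 - a) ^ 2 + ∑ k, x k ^ 2) =
          (‖v‖ ^ 2 - ∑ k, co p v k ^ 2) - 2 * (inner ℝ v (p j) - a) := by
        rw [hl2, s2]; ring
      rw [e1]
      have h4 := abs_le.1 hinj
      rw [hee] at h4 hlow hup
      rw [abs_le]
      constructor <;> linarith)
    -- the inner product
    have hXj : XX p (p j) = FF (1 - e0) • p j := by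
      unfold XX
      rw [← Finset.add_sum_erase _ _ (Finset.mem_univ j), hjj]
      rw [Finset.sum_eq_zero, add_zero]
      intro k hk
      rw [hjk k (Finset.ne_of_mem_erase hk), FF_zero, zero_smul]
    have hinner : (1 - a) * (7 / 8 - FF a) + ∑ k, x k * FF (x k) - 2 * e0 ≤
        inner ℝ (v - p j) (XX p v - XX p (p j)) := by
      have e1 : inner ℝ (v - p j) (XX p v - XX p (p j)) =
          (FF (1 - e0) - FF a) * (1 - inner ℝ v (p j)) +
          ∑ k ∈ Finset.univ.erase j, FF (co p v k) * inner ℝ (v - p j) (p k) := by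
        rw [inner_sub_right, hXj]
        unfold XX
        rw [inner_sum, ← Finset.add_sum_erase _ _ (Finset.mem_univ j)]
        simp only [inner_smul_right, ← ha]
        have : inner ℝ (v - p j) (p j) = inner ℝ v (p j) - 1 := by
          rw [inner_sub_left, hpp]
        rw [this]; ring
      have e2 : ∑ k, x k * FF (x k) = ∑ k ∈ Finset.univ.erase j, x k * FF (x k) := by
        rw [← Finset.add_sum_erase _ _ (Finset.mem_univ j), hxj, zero_mul, zero_add]
      have e3 : ∑ k ∈ Finset.univ.erase j, x k * FF (x k) ≤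
          ∑ k ∈ Finset.univ.erase j, FF (co p v k) * inner ℝ (v - p j) (p k) := by
        refine Finset.sum_le_sum fun k hk => ?_
        have hkj := Finset.ne_of_mem_erase hk
        rw [hxk k hkj]
        by_cases h0 : co p v k = 0
        · rw [h0, FF_zero]; simp
        · have h5 := hne k h0
          have h6 := (abs_le.1 (hp.orth j k (Ne.symm hkj))).2
          have h7 : co p v k ≤ inner ℝ (v - p j) (p k) := by
            rw [inner_sub_left, h5]; linarith
          rw [mul_comm]
          exact mul_le_mul_of_nonneg_left h7 (FF_nonneg _)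
      have e4 : (1 - a) * (7 / 8 - FF a) - 2 * e0 ≤
          (FF (1 - e0) - FF a) * (1 - inner ℝ v (p j)) := by
        have h5 := FF_top
        have h6 := FF_mono ha0 ha1
        have h7 := FF_nonneg a
        have h8 := (abs_le.1 hinj).2
        have h9 : (FF (1 - e0) - FF a) * (1 - a - e0) ≤
            (FF (1 - e0) - FF a) * (1 - inner ℝ v (p j)) :=
          mul_le_mul_of_nonneg_left (by linarith) (by linarith)
        have h10 : (7 / 8 - e0 - FF a) * (1 - a - e0) ≤ (FF (1 - e0) - FF a) * (1 - a - e0) :=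
          mul_le_mul_of_nonneg_right (by linarith) (by linarith)
        have h11 : (1 - a) * (7 / 8 - FF a) - 2 * e0 ≤ (7 / 8 - e0 - FF a) * (1 - a - e0) := by
          have : (7 / 8 - e0 - FF a) * (1 - a - e0) = (1 - a) * (7 / 8 - FF a) -
              e0 * (1 - a) - e0 * (7 / 8 - FF a) + e0 ^ 2 := by ring
          rw [this]
          have t1 : e0 * (1 - a) ≤ e0 * 1 := mul_le_mul_of_nonneg_left (by linarith) he.le
          have t2 : e0 * (7 / 8 - FF a) ≤ e0 * 1 :=
            mul_le_mul_of_nonneg_left (by linarith) he.le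
          have t3 : 0 ≤ e0 ^ 2 := by positivity
          linarith
        linarith
      rw [e1, e2]
      linarith
    have hEE : l + ((1 - a) * (7 / 8 - FF a) + ∑ k, x k * FF (x k)) / l - 2 * e0 / l ≤
        EE p v (p j) := by
      unfold EE
      rw [← hl]
      have h5 := div_le_div_of_nonneg_right hinner hl0
      rw [sub_div] at h5
      linarith
    have hTE : TE p v (p j) ≤ 2 * (5 / 8 - Th a) + 2 * ∑ k, Th (x k) := by
      unfold TE
      rw [← Finset.add_sum_erase _ _ (Finset.mem_univ j), hjj]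
      have e2 : ∑ k, Th (x k) = ∑ k ∈ Finset.univ.erase j, Th (x k) := by
        rw [← Finset.add_sum_erase _ _ (Finset.mem_univ j), hxj, Th_zero, zero_add]
      have e3 : ∑ k ∈ Finset.univ.erase j, |Th (co p v k) - Th (co p (p j) k)| =
          ∑ k ∈ Finset.univ.erase j, Th (x k) := by
        refine Finset.sum_congr rfl fun k hk => ?_
        have hkj := Finset.ne_of_mem_erase hk
        rw [hjk k hkj, Th_zero, sub_zero, abs_of_nonneg (Th_nonneg _), hxk k hkj]
      rw [e2, e3]
      have h5 := Th_mono ha0 ha1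
      have h6 := Th_top
      rw [← ha, abs_of_nonpos (by linarith)]
      linarith
    have herr : 2 * e0 / l ≤ 2 / 1000 := by
      rw [div_le_iff₀ hlpos, hee]
      linarith
    unfold SL
    rw [hsT]
    linarith

end LX
end H11ST
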