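import Pool.Agent.Helper27.LX.LF
open MeasureTheory Metric Set Filter Topology
open scoped ENNReal NNReal

/-! Row LFR of the sheet `Pool.Agent.Helper36.LX.Sheet`: the numerical inequality. -/

namespace H11ST
namespace LX
namespace L27
open LG

/-- the discriminant in the first case -/
lemma discA (u : ℝ) (h1 : -(1 / 1000) ≤ u) (h2 : u ≤ 42 / 100) :
    12 / 100 ≤ 4 * (1 + u + 5 * u ^ 2 + 7 * u ^ 3 + 2 * u ^ 4) * (303 / 1000 + 1428 / 1000 * u) -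
      (-1 - 4 * u + u ^ 2) ^ 2 := by
  have e : 4 * (1 + u + 5 * u ^ 2 + 7 * u ^ 3 + 2 * u ^ 4) * (303 / 1000 + 1428 / 1000 * u) -
      (-1 - 4 * u + u ^ 2) ^ 2 = 212 / 1000 - 1076 / 1000 * u - 2228 / 1000 * u ^ 2 +
      45044 / 1000 * u ^ 3 + 41408 / 1000 * u ^ 4 + 11424 / 1000 * u ^ 5 := by ring
  rw [e]
  have h3 : 0 ≤ u + 1 / 1000 := by linarith
  have h4 : 0 ≤ (u + 1 / 1000) * (u - 1 / 10) ^ 2 := by positivity
  have h5 : 0 ≤ u ^ 4 := by positivity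
  have h6 : 0 ≤ u ^ 4 * (u + 1 / 1000) := by positivity
  nlinarith [sq_nonneg (u - 1 / 10), sq_nonneg u]

lemma discB (u : ℝ) (h1 : -(1 / 1000) ≤ u) (h2 : u ≤ 42 / 100) :
    12 / 100 ≤ 4 * (1 - 1 / 2 * u + 5 * u ^ 2 + 7 * u ^ 3 + 2 * u ^ 4) *
      (303 / 1000 + 303 / 1000 * u) - (-1 - u + u ^ 2) ^ 2 := by
  have e : 4 * (1 - 1 / 2 * u + 5 * u ^ 2 + 7 * u ^ 3 + 2 * u ^ 4) *
      (303 / 1000 + 303 / 1000 * u) - (-1 - u + u ^ 2) ^ 2 = 212 / 1000 - 1394 / 1000 * u +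
      6454 / 1000 * u ^ 2 + 16544 / 1000 * u ^ 3 + 9908 / 1000 * u ^ 4 +
      2424 / 1000 * u ^ 5 := by ring
  rw [e]
  have h3 : 0 ≤ u + 1 / 1000 := by linarith
  have h4 : 0 ≤ (u + 1 / 1000) * (u - 1 / 10) ^ 2 := by positivity
  have h5 : 0 ≤ u ^ 4 := by positivity
  have h6 : 0 ≤ u ^ 4 * (u + 1 / 1000) := by positivity
  nlinarith [sq_nonneg (u - 1 / 10), sq_nonneg u]

/-- a quadratic polynomial with negative discriminant -/
lemma quad (A B C s : ℝ) (hA : 0 < A) (hA3 : A ≤ 3) (hD : 12 / 100 ≤ 4 * A * C - B ^ 2) :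
    1 / 100 ≤ A * s ^ 2 + B * s + C := by
  by_contra h
  push Not at h
  have h1 : 4 * A * (A * s ^ 2 + B * s + C) = (2 * A * s + B) ^ 2 + (4 * A * C - B ^ 2) := by ring
  have h2 : 4 * A * (A * s ^ 2 + B * s + C) < 4 * A * (1 / 100) :=
    mul_lt_mul_of_pos_left h (by linarith)
  nlinarith [sq_nonneg (2 * A * s + B)]

/-- the range of `l / s` -/
lemma range_m {s q l : ℝ} (hs : 1 / 10 ≤ s) (hq0 : 0 ≤ q) (hq : q ≤ s ^ 2) (hl : 0 < l)
    (h : |l ^ 2 - (s ^ 2 + q)| ≤ 1 / 100000) : 999 / 1000 * s ≤ l ∧ l ≤ 142 / 100 * s := by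
  obtain ⟨h1, h2⟩ := abs_le.1 h
  have hs2 : 1 / 100 ≤ s ^ 2 := by nlinarith
  constructor
  · by_contra hc
    push Not at hc
    have : l ^ 2 < (999 / 1000 * s) ^ 2 := pow_lt_pow_left₀ hc hl.le (by norm_num)
    nlinarith
  · by_contra hc
    push Not at hc
    have : (142 / 100 * s) ^ 2 < l ^ 2 := pow_lt_pow_left₀ hc (by linarith) (by norm_num)
    nlinarith

/-- the final step in the first two cases: `T = 1.572 - 3 Θ(a)`, `R = s (7 / 8 - F(a))` -/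
lemma fin2 {s q l T R N c : ℝ} (hs : 1 / 10 ≤ s) (hs1 : s ≤ 1) (hq0 : 0 ≤ q) (hq : q ≤ s ^ 2)
    (hl : 0 < l) (h : |l ^ 2 - (s ^ 2 + q)| ≤ 1 / 100000)
    (hc : 1 / 100 ≤ c)
    (hG : s * l ^ 2 + s * R + 2 * (l ^ 2 - s ^ 2) ^ 2 - s * l * (T + (l ^ 2 - s ^ 2)) =
      s ^ 2 * c)
    (hN : R + 2 * q ^ 2 / s ≤ N) : (T + q) * l ≤ l ^ 2 + N := by
  have hs0 : 0 < s := by linarith
  obtain ⟨m1, m2⟩ := range_m hs hq0 hq hl h
  obtain ⟨δ, hδ⟩ : ∃ δ : ℝ, δ = l ^ 2 - (s ^ 2 + q) := ⟨_, rfl⟩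
  rw [← hδ] at h
  obtain ⟨d1, d2⟩ := abs_le.1 h
  have hQ : l ^ 2 - s ^ 2 = q + δ := by rw [hδ]; ring
  have hs2 : 1 / 100 ≤ s ^ 2 := by nlinarith
  have key : 0 ≤ s * (l ^ 2 + (R + 2 * q ^ 2 / s) - (T + q) * l) := by
    have e1 : s * (l ^ 2 + (R + 2 * q ^ 2 / s) - (T + q) * l) =
        s ^ 2 * c - 4 * q * δ - 2 * δ ^ 2 + s * l * δ := by
      rw [← hG, hQ]
      field_simp
      ring
    rw [e1]
    have a1 : 4 * q * δ ≤ 4 * s ^ 2 * (1 / 100000) := by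
      calc 4 * q * δ ≤ 4 * q * (1 / 100000) := by
            apply mul_le_mul_of_nonneg_left d2 (by positivity)
        _ ≤ 4 * s ^ 2 * (1 / 100000) := by linarith
    have a2 : δ ^ 2 ≤ (1 / 100000) ^ 2 := by
      rw [← sq_abs]; exact pow_le_pow_left₀ (abs_nonneg _) h 2
    have a3 : -(142 / 100 * s ^ 2 * (1 / 100000)) ≤ s * l * δ := by
      have b1 : s * l ≤ s * (142 / 100 * s) := mul_le_mul_of_nonneg_left m2 hs0.le
      have b2 : 0 ≤ s * l := by positivity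
      have b3 : s * l * (-(1 / 100000)) ≤ s * l * δ := mul_le_mul_of_nonneg_left d1 b2
      nlinarith
    have a4 : s ^ 2 * (1 / 100) ≤ s ^ 2 * c := mul_le_mul_of_nonneg_left hc (by positivity)
    nlinarith
  have := nonneg_of_mul_nonneg_right key hs0
  linarith

lemma sum_sq_le {m : ℕ} (x : Fin m → ℝ) (hx : ∀ k, 0 ≤ x k) (s : Finset (Fin m)) :
    ∑ k ∈ s, x k ^ 2 ≤ (∑ k ∈ s, x k) ^ 2 := by
  have h : ∀ k ∈ s, x k ^ 2 ≤ x k * ∑ i ∈ s, x i := by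
    intro k hk
    have h1 := Finset.single_le_sum (f := x) (fun i _ => hx i) hk
    rw [sq]
    exact mul_le_mul_of_nonneg_left h1 (hx k)
  calc ∑ k ∈ s, x k ^ 2 ≤ ∑ k ∈ s, x k * ∑ i ∈ s, x i := Finset.sum_le_sum h
    _ = (∑ k ∈ s, x k) ^ 2 := by rw [← Finset.sum_mul, sq]

/-- Cauchy -/
lemma cauchy {m : ℕ} (x : Fin m → ℝ) (hx : ∀ k, 0 ≤ x k) :
    (∑ k, x k ^ 2) ^ 2 ≤ (∑ k, x k) * ∑ k, x k ^ 3 :=
  Finset.sum_sq_le_sum_mul_sum_of_sq_eq_mul _ (fun k _ => hx k) (fun k _ => pow_nonneg (hx k) 3)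
    (fun k _ => by ring)

lemma Th_small {t : ℝ} (h : t ≤ 1 / 2) : Th t = t ^ 2 := by unfold Th; rw [if_pos h]
lemma FF_small {t : ℝ} (h : t ≤ 1 / 2) : FF t = 2 * t ^ 2 := by unfold FF; rw [if_pos h]
lemma Th_big {t : ℝ} (h : 1 / 2 < t) : Th t = t ^ 2 / 2 + 1 / 8 := by
  unfold Th; rw [if_neg (not_le.2 h)]
lemma FF_big {t : ℝ} (h : 1 / 2 < t) : FF t = t ^ 2 / 2 + 3 / 8 := by
  unfold FF; rw [if_neg (not_le.2 h)]

/-- reduction to a polynomial inequality -/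
lemma red {l P Q R S K : ℝ} (hl : 0 < l) (hM : (72 / 1000 + 2 * (5 / 8 - P) + 2 * Q -
    (P + Q - 1 / 4)) * l ≤ l ^ 2 + (R + S)) (hK : K = P) :
    72 / 1000 ≤ l + (R + S) / l - 2 * (5 / 8 - K) - 2 * Q + (K + Q - 1 / 4) := by
  subst hK
  have h1 : (l ^ 2 + (R + S)) / l = l + (R + S) / l := by field_simp
  have h2 : 72 / 1000 + 2 * (5 / 8 - K) + 2 * Q - (K + Q - 1 / 4) ≤ (l ^ 2 + (R + S)) / l :=
    (le_div_iff₀ hl).2 hM
  rw [h1] at h2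
  linarith

/-- third case: numbers -/
lemma caseC (a b r : ℝ) (ha : 0 ≤ a) (hb : 1 / 2 ≤ b) (hab : a + b ≤ 1)
    (hr : r ≤ (1 - a - b) ^ 2) (hr0 : 0 ≤ r) :
    (1697 / 1000 - 3 * a ^ 2 + b ^ 2 / 2 + r) ^ 2 ≤
      4 * ((1 - a) * (7 / 8 - 2 * a ^ 2) + b * (b ^ 2 / 2 + 3 / 8)) := by
  obtain ⟨β, hβ⟩ : ∃ β : ℝ, β = b - 1 / 2 := ⟨_, rfl⟩
  have hb' : b = 1 / 2 + β := by rw [hβ]; ring
  subst hb'
  have hβ0 : 0 ≤ β := by linarith
  have hβ1 : β ≤ 1 / 2 - a := by linarith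
  have ha2 : a ≤ 1 / 2 := by linarith
  obtain ⟨M0, hM0⟩ : ∃ M0 : ℝ, M0 = 2072 / 1000 - a - 2 * a ^ 2 := ⟨_, rfl⟩
  have hM0p : 0 ≤ M0 := by rw [hM0]; nlinarith
  have hM0u : M0 ≤ 2072 / 1000 := by rw [hM0]; nlinarith
  have e1 : 1697 / 1000 - 3 * a ^ 2 + (1 / 2 + β) ^ 2 / 2 + r ≤ M0 + β / 2 := by
    have : 1697 / 1000 - 3 * a ^ 2 + (1 / 2 + β) ^ 2 / 2 + (1 - a - (1 / 2 + β)) ^ 2 =
        M0 + β * (2 * a - 1 / 2) + 3 / 2 * β ^ 2 := by rw [hM0]; ring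
    nlinarith [mul_nonneg hβ0 (sub_nonneg.2 hβ1), mul_nonneg hβ0 (sub_nonneg.2 ha2)]
  have e0 : 0 ≤ 1697 / 1000 - 3 * a ^ 2 + (1 / 2 + β) ^ 2 / 2 + r := by nlinarith
  have e2 : (1697 / 1000 - 3 * a ^ 2 + (1 / 2 + β) ^ 2 / 2 + r) ^ 2 ≤ (M0 + β / 2) ^ 2 :=
    pow_le_pow_left₀ e0 e1 2
  have e3 : (M0 + β / 2) ^ 2 ≤ M0 ^ 2 + 2072 / 1000 * β + β ^ 2 / 4 := by nlinarith
  have e4 : M0 ^ 2 + 1 / 10 ≤ 4 * ((1 - a) * (7 / 8 - 2 * a ^ 2) + 1 / 4) := by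
    have : 4 * ((1 - a) * (7 / 8 - 2 * a ^ 2) + 1 / 4) - M0 ^ 2 =
        4.5 - 2.072 ^ 2 + 0.644 * a - 0.712 * a ^ 2 + 4 * a ^ 3 - 4 * a ^ 4 := by
      rw [hM0]; ring
    have h3 : 0 ≤ a ^ 3 * (1 - a) := by
      apply mul_nonneg (by positivity) (by linarith)
    nlinarith [mul_nonneg ha (sub_nonneg.2 ha2)]
  nlinarith [pow_nonneg hβ0 3, pow_nonneg hβ0 2]

end L27

open L27 in
open LG in
theorem lfr : LX_LFR := by
  classical
  intro m a x l ha0 ha1 hx0 hsum hnorm hl hdl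
  obtain ⟨s, hs⟩ : ∃ s : ℝ, s = 1 - a := ⟨_, rfl⟩
  obtain ⟨q, hq⟩ : ∃ q : ℝ, q = ∑ k, x k ^ 2 := ⟨_, rfl⟩
  have hq0 : 0 ≤ q := by rw [hq]; exact Finset.sum_nonneg fun k _ => by positivity
  have hX : ∑ k, x k ≤ s := by rw [hs]; linarith
  have hX0 : 0 ≤ ∑ k, x k := Finset.sum_nonneg fun k _ => hx0 k
  have hqs : q ≤ s ^ 2 := by
    rw [hq]
    exact (sum_sq_le x hx0 Finset.univ).trans (pow_le_pow_left₀ hX0 hX 2)
  have hs1 : s ≤ 1 := by rw [hs]; linarith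
  have hs0 : 0 ≤ s := by rw [hs]; linarith
  have hxs : ∀ k, x k ≤ s := fun k =>
    (Finset.single_le_sum (f := x) (fun i _ => hx0 i) (Finset.mem_univ k)).trans hX
  rw [← hs, ← hq] at hdl
  by_cases hall : ∀ k, x k ≤ 1 / 2
  · have hTh : ∑ k, Th (x k) = q := by
      rw [hq]; exact Finset.sum_congr rfl fun k _ => Th_small (hall k)
    have hFF : ∑ k, x k * FF (x k) = 2 * ∑ k, x k ^ 3 := by
      rw [Finset.mul_sum]
      exact Finset.sum_congr rfl fun k _ => by rw [FF_small (hall k)]; ring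
    have hc3 : 0 ≤ ∑ k, x k ^ 3 := Finset.sum_nonneg fun k _ => pow_nonneg (hx0 k) 3
    have hcau : q ^ 2 ≤ s * ∑ k, x k ^ 3 := by
      rw [hq]
      exact (cauchy x hx0).trans (mul_le_mul_of_nonneg_right hX hc3)
    rcases lt_or_ge s (1 / 10) with hsm | hsb
    · -- `a` close to `1`
      have ha9 : 9 / 10 < a := by rw [hs] at hsm; linarith
      rw [hTh, hFF]
      have hF : FF a = a ^ 2 / 2 + 3 / 8 := FF_big (by linarith)
      have hT : Th a = a ^ 2 / 2 + 1 / 8 := Th_big (by linarith)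
      rw [hF, hT]
      have hN : 0 ≤ ((1 - a) * (7 / 8 - (a ^ 2 / 2 + 3 / 8)) + 2 * ∑ k, x k ^ 3) / l := by
        apply div_nonneg _ hl.le
        have : 0 ≤ (1 - a) * (7 / 8 - (a ^ 2 / 2 + 3 / 8)) :=
          mul_nonneg (by linarith) (by nlinarith)
        linarith
      nlinarith
    · have hs0' : 0 < s := by linarith
      have hNq : 2 * q ^ 2 / s ≤ 2 * ∑ k, x k ^ 3 := by
        rw [div_le_iff₀ hs0']; linarith
      obtain ⟨m1, m2⟩ := range_m hsb hq0 hqs hl hdl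
      obtain ⟨u, hu⟩ : ∃ u : ℝ, u = (l - s) / s := ⟨_, rfl⟩
      have hlu : l = s * (1 + u) := by rw [hu]; field_simp; ring
      have u1 : -(1 / 1000) ≤ u := by rw [hu, le_div_iff₀ hs0']; linarith
      have u2 : u ≤ 42 / 100 := by rw [hu, div_le_iff₀ hs0']; linarith
      refine red hl ?_ rfl
      rw [hTh, hFF]
      rcases le_or_gt a (1 / 2) with hah | hah
      · rw [Th_small hah, FF_small hah]
        have hA0 : 0 < 1 + u + 5 * u ^ 2 + 7 * u ^ 3 + 2 * u ^ 4 := by nlinarith [sq_nonneg u]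
        have hA3 : 1 + u + 5 * u ^ 2 + 7 * u ^ 3 + 2 * u ^ 4 ≤ 3 := by
          have v1 : u ^ 2 ≤ 42 / 100 * (42 / 100) := by nlinarith
          have v2 : u ^ 3 ≤ 42 / 100 * (42 / 100 * (42 / 100)) := by nlinarith [sq_nonneg u]
          have v3 : u ^ 4 ≤ (42 / 100 * (42 / 100)) ^ 2 := by
            have : u ^ 4 = (u ^ 2) ^ 2 := by ring
            rw [this]; exact pow_le_pow_left₀ (sq_nonneg u) v1 2
          norm_num at v1 v2 v3 ⊢
          linarith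
        have hc := quad _ _ _ s hA0 hA3 (discA u u1 u2)
        have := fin2 (T := 1572 / 1000 - 3 * a ^ 2) (R := s * (7 / 8 - 2 * a ^ 2))
          (N := (1 - a) * (7 / 8 - 2 * a ^ 2) + 2 * ∑ k, x k ^ 3) hsb hs1 hq0 hqs hl hdl hc
          (by
            have ha' : a = 1 - s := by rw [hs]; ring
            rw [ha', hlu]; ring)
          (by rw [← hs]; linarith)
        refine le_trans (le_of_eq ?_) this
        ring
      · rw [Th_big hah, FF_big hah]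
        have hA0 : 0 < 1 - 1 / 2 * u + 5 * u ^ 2 + 7 * u ^ 3 + 2 * u ^ 4 := by
          nlinarith [sq_nonneg u]
        have hA3 : 1 - 1 / 2 * u + 5 * u ^ 2 + 7 * u ^ 3 + 2 * u ^ 4 ≤ 3 := by
          have v1 : u ^ 2 ≤ 42 / 100 * (42 / 100) := by nlinarith
          have v2 : u ^ 3 ≤ 42 / 100 * (42 / 100 * (42 / 100)) := by nlinarith [sq_nonneg u]
          have v3 : u ^ 4 ≤ (42 / 100 * (42 / 100)) ^ 2 := by
            have : u ^ 4 = (u ^ 2) ^ 2 := by ring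
            rw [this]; exact pow_le_pow_left₀ (sq_nonneg u) v1 2
          norm_num at v1 v2 v3 ⊢
          linarith
        have hc := quad _ _ _ s hA0 hA3 (discB u u1 u2)
        have := fin2 (T := 1572 / 1000 - 3 * (a ^ 2 / 2 + 1 / 8))
          (R := s * (7 / 8 - (a ^ 2 / 2 + 3 / 8)))
          (N := (1 - a) * (7 / 8 - (a ^ 2 / 2 + 3 / 8)) + 2 * ∑ k, x k ^ 3) hsb hs1 hq0 hqs hl
          hdl hc
          (by
            have ha' : a = 1 - s := by rw [hs]; ring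
            rw [ha', hlu]; ring)
          (by rw [← hs]; linarith)
        refine le_trans (le_of_eq ?_) this
        ring
  · -- one coordinate larger than `1 / 2`
    push Not at hall
    obtain ⟨j, hj⟩ := hall
    have hsplit : ∀ g : Fin m → ℝ, ∑ k, g k = g j + ∑ k ∈ Finset.univ.erase j, g k := fun g =>
      (Finset.add_sum_erase _ _ (Finset.mem_univ j)).symm
    have hrest : a + x j + ∑ k ∈ Finset.univ.erase j, x k ≤ 1 := by
      rw [hsplit x] at hsum; linarith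
    have hr0 : 0 ≤ ∑ k ∈ Finset.univ.erase j, x k := Finset.sum_nonneg fun k _ => hx0 k
    have hah : a ≤ 1 / 2 := by linarith
    have hsm : ∀ k ∈ Finset.univ.erase j, x k ≤ 1 / 2 := by
      intro k hk
      have := Finset.single_le_sum (f := x) (fun i _ => hx0 i) hk
      linarith
    obtain ⟨r, hr⟩ : ∃ r : ℝ, r = ∑ k ∈ Finset.univ.erase j, x k ^ 2 := ⟨_, rfl⟩
    have hrr0 : 0 ≤ r := by rw [hr]; exact Finset.sum_nonneg fun k _ => by positivity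
    have hrr : r ≤ (1 - a - x j) ^ 2 := by
      rw [hr]
      exact (sum_sq_le x hx0 _).trans (pow_le_pow_left₀ hr0 (by linarith) 2)
    have hTh : ∑ k, Th (x k) = x j ^ 2 / 2 + 1 / 8 + r := by
      rw [hsplit (fun k => Th (x k)), Th_big hj, hr]
      congr 1
      exact Finset.sum_congr rfl fun k hk => Th_small (hsm k hk)
    have hFF : x j * (x j ^ 2 / 2 + 3 / 8) ≤ ∑ k, x k * FF (x k) := by
      rw [hsplit (fun k => x k * FF (x k)), FF_big hj]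
      have : 0 ≤ ∑ k ∈ Finset.univ.erase j, x k * FF (x k) :=
        Finset.sum_nonneg fun k _ => mul_nonneg (hx0 k) (FF_nonneg _)
      linarith
    refine red hl ?_ rfl
    rw [hTh, Th_small hah, FF_small hah]
    have hC := caseC a (x j) r ha0 hj.le (by linarith) hrr hrr0
    obtain ⟨M, hM⟩ : ∃ M : ℝ, M = 1697 / 1000 - 3 * a ^ 2 + x j ^ 2 / 2 + r := ⟨_, rfl⟩
    rw [← hM] at hC
    have e1 : 72 / 1000 + 2 * (5 / 8 - a ^ 2) + 2 * (x j ^ 2 / 2 + 1 / 8 + r) -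
        (a ^ 2 + (x j ^ 2 / 2 + 1 / 8 + r) - 1 / 4) = M := by rw [hM]; ring
    rw [e1]
    nlinarith [sq_nonneg (l - M / 2)]

end LX
end H11ST
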